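import Mathlib
import Pool.Agent.W743.GV.Stm

/-!
Project GV, part DIV: the divergence of the velocity vanishes.
-/

namespace Pool.Agent.W721.GV

open Pool.Agent.W743.GV

theorem lf_apply (a b c : ℝ) (v : E3) : lf a b c v = a * v 0 + b * v 1 + c * v 2 := by
  simp [lf]

theorem lf0 (a b c : ℝ) : lf a b c (EuclideanSpace.single 0 1) = a := by
  rw [lf_apply]
  simp

theorem lf1 (a b c : ℝ) : lf a b c (EuclideanSpace.single 1 1) = b := by
  rw [lf_apply]
  simp

theorem lf2 (a b c : ℝ) : lf a b c (EuclideanSpace.single 2 1) = c := by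
  rw [lf_apply]
  simp

theorem alg (X Y s r Q B F ms mp w : ℝ) (hs : s ≠ 0) (hr : r ≠ 0) (hXY : X ^ 2 + Y ^ 2 = s)
    (hid : s * ms - Q * mp + 2 * r ^ 2 * (s * B - (F - B)) = 0) :
    (1 / s) * (r + X * ((1 / (2 * r)) * (ms * (2 * X) + mp * ((-2 * Q * X + 2 * r * Y) / s)))
        - Y * ((F - B) * ((-2 * Q * X + 2 * r * Y) / s) + 2 * X))
      - ((X * r - Y * w) / s ^ 2) * (2 * X)
      + ((1 / s) * (r + Y * ((1 / (2 * r)) * (ms * (2 * Y) + mp * ((-2 * Q * Y - 2 * r * X) / s)))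
        + X * ((F - B) * ((-2 * Q * Y - 2 * r * X) / s) + 2 * Y))
      - ((Y * r + X * w) / s ^ 2) * (2 * Y)) + B * (2 * r) = 0 := by
  have key : (1 / s) * (r + X * ((1 / (2 * r)) * (ms * (2 * X) + mp * ((-2 * Q * X + 2 * r * Y) / s)))
        - Y * ((F - B) * ((-2 * Q * X + 2 * r * Y) / s) + 2 * X))
      - ((X * r - Y * w) / s ^ 2) * (2 * X)
      + ((1 / s) * (r + Y * ((1 / (2 * r)) * (ms * (2 * Y) + mp * ((-2 * Q * Y - 2 * r * X) / s)))
        + X * ((F - B) * ((-2 * Q * Y - 2 * r * X) / s) + 2 * Y))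
      - ((Y * r + X * w) / s ^ 2) * (2 * Y)) + B * (2 * r)
      = (1 / (s * r)) * (s * ms - Q * mp + 2 * r ^ 2 * (s * B - (F - B))) := by
    subst hXY
    field_simp
    ring
  rw [key, hid, mul_zero]

theorem t_DIV (hID : S_ID) : S_DIV := by
  intro d b f hD x P hx hP
  have hid := hID d b f hD (ss x) hx P hP
  have hM := hD.Mpos (ss x) hx P hP
  have hs : ss x ≠ 0 := by
    have h1 := hx.1
    have h2 := hD.hd1
    have : 0 < ss x := by linarith
    exact this.ne'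
  have hr : √(MM b f (ss x) P) ≠ 0 := (Real.sqrt_pos.2 hM).ne'
  have hr2 : √(MM b f (ss x) P) ^ 2 = MM b f (ss x) P := Real.sq_sqrt hM.le
  have h := alg (x 0) (x 1) (ss x) (√(MM b f (ss x) P)) (QQ b f (ss x) P) (deriv b P) (deriv f P)
    (MS b f (ss x) P) (MP b f (ss x) P) (wv b f x P) hs hr rfl (by
      rw [hr2]
      unfold QP at hid
      linarith)
  simp only [L0, L1, L2, Lr, Lw, Ls, Lp, sub_apply, add_apply, smul_apply, smul_eq_mul, lf0, lf1,
    lf2]
  refine Eq.trans ?_ h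
  ring

end Pool.Agent.W721.GV
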