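import Mathlib
import Pool.Agent.W743.GV.Stm

/-!
Project GV, part DU: differentials of the components of the velocity.
-/

namespace Pool.Agent.W721.GV

open Pool.Agent.W743.GV
open scoped ContDiff

theorem lf_app (a b c : ℝ) (v : E3) : lf a b c v = a * v 0 + b * v 1 + c * v 2 := by
  simp [lf]

theorem hx0 (x : E3) : HasFDerivAt (fun y : E3 => y 0) (lf 1 0 0) x := by
  have h := (EuclideanSpace.proj 0 : E3 →L[ℝ] ℝ).hasFDerivAt (x := x)
  refine h.congr_fderiv ?_
  ext v
  simp [lf]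

theorem hx1 (x : E3) : HasFDerivAt (fun y : E3 => y 1) (lf 0 1 0) x := by
  have h := (EuclideanSpace.proj 1 : E3 →L[ℝ] ℝ).hasFDerivAt (x := x)
  refine h.congr_fderiv ?_
  ext v
  simp [lf]

theorem hss (x : E3) : HasFDerivAt ss (Ls x) x := by
  have h : HasFDerivAt (fun y : E3 => y 0 ^ 2 + y 1 ^ 2) _ x := ((hx0 x).pow 2).add ((hx1 x).pow 2)
  refine h.congr_fderiv ?_
  ext v
  simp [lf, Ls]

theorem t_DU : S_DU := by
  intro d b f U p hD hS x hx
  have hdp : HasFDerivAt p (Lp b f x (p x)) x := hS.dp x hx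
  have hpJ : p x ∈ J d := hS.pJ x hx
  have hsJ : ss x ∈ J d := hS.sJ x hx
  have hJo : J d ∈ nhds (p x) := Ioo_mem_nhds hpJ.1 hpJ.2
  have hb : HasDerivAt b (deriv b (p x)) (p x) :=
    ((hD.cb.contDiffAt hJo).differentiableAt (by simp)).hasDerivAt
  have hf : HasDerivAt f (deriv f (p x)) (p x) :=
    ((hD.cf.contDiffAt hJo).differentiableAt (by simp)).hasDerivAt
  have hbp : HasFDerivAt (fun y => b (p y)) (deriv b (p x) • Lp b f x (p x)) x :=
    hb.comp_hasFDerivAt x hdp
  have hfp : HasFDerivAt (fun y => f (p y)) (deriv f (p x) • Lp b f x (p x)) x :=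
    hf.comp_hasFDerivAt x hdp
  have hs : HasFDerivAt ss (Ls x) x := hss x
  have hbs : HasFDerivAt (fun y => b (p y) - ss y) (deriv b (p x) • Lp b f x (p x) - Ls x) x :=
    hbp.sub hs
  have hw : HasFDerivAt (fun y => wv b f y (p y)) (Lw b f x (p x)) x := by
    have h : HasFDerivAt (fun y => f (p y) - (b (p y) - ss y)) _ x := hfp.sub hbs
    refine h.congr_fderiv ?_
    unfold Lw
    module
  have hM : HasFDerivAt (fun y => MM b f (ss y) (p y))
      (MS b f (ss x) (p x) • Ls x + MP b f (ss x) (p x) • Lp b f x (p x)) x := by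
    have h : HasFDerivAt (fun y => ss y * (3 * p y - (b (p y) - ss y) ^ 2) -
        (f (p y) - (b (p y) - ss y)) ^ 2) _ x :=
      (hs.mul ((hdp.const_mul 3).sub (hbs.pow 2))).sub ((hfp.sub hbs).pow 2)
    refine h.congr_fderiv ?_
    ext v
    simp only [MS, MP, sub_apply, add_apply, smul_apply, smul_eq_mul, Pi.sub_apply, Pi.add_apply,
      Pi.mul_apply, Pi.pow_apply]
    push_cast
    ring
  have hMpos : 0 < MM b f (ss x) (p x) := hD.Mpos _ hsJ _ hpJ
  have hr : HasFDerivAt (fun y => √(MM b f (ss y) (p y))) (Lr b f x (p x)) x := by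
    have h := hM.sqrt hMpos.ne'
    exact h
  have hs0 : ss x ≠ 0 := by
    have h1 := hsJ.1
    have h2 := hD.hd1
    have : 0 < ss x := by linarith
    exact this.ne'
  have hinv : HasFDerivAt (fun y => (ss y)⁻¹) (-(ss x ^ 2)⁻¹ • Ls x) x :=
    (hasDerivAt_inv hs0).comp_hasFDerivAt x hs
  refine ⟨?_, ?_, ?_⟩
  · have h : HasFDerivAt (fun y : E3 => (y 0 * √(MM b f (ss y) (p y)) - y 1 * wv b f y (p y)) *
        (ss y)⁻¹) _ x := (((hx0 x).mul hr).sub ((hx1 x).mul hw)).mul hinv
    have e : (fun y : E3 => (VV b f y (p y)) 0) = fun y : E3 =>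
        (y 0 * √(MM b f (ss y) (p y)) - y 1 * wv b f y (p y)) * (ss y)⁻¹ := by
      funext y
      simp [VV, div_eq_mul_inv]
    rw [e]
    refine h.congr_fderiv ?_
    ext v
    simp only [L0, sub_apply, add_apply, smul_apply, smul_eq_mul, Pi.sub_apply, Pi.add_apply,
      Pi.mul_apply]
    field_simp
    ring
  · have h : HasFDerivAt (fun y : E3 => (y 1 * √(MM b f (ss y) (p y)) + y 0 * wv b f y (p y)) *
        (ss y)⁻¹) _ x := (((hx1 x).mul hr).add ((hx0 x).mul hw)).mul hinv
    have e : (fun y : E3 => (VV b f y (p y)) 1) = fun y : E3 =>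
        (y 1 * √(MM b f (ss y) (p y)) + y 0 * wv b f y (p y)) * (ss y)⁻¹ := by
      funext y
      simp [VV, div_eq_mul_inv]
    rw [e]
    refine h.congr_fderiv ?_
    ext v
    simp only [L1, sub_apply, add_apply, smul_apply, smul_eq_mul, Pi.sub_apply, Pi.add_apply,
      Pi.mul_apply]
    field_simp
    ring
  · have e : (fun y : E3 => (VV b f y (p y)) 2) = fun y : E3 => b (p y) - ss y := by
      funext y
      simp [VV]
    rw [e]
    exact hbs

end Pool.Agent.W721.GV
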